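import Pool.Agent.Helper190.EdgeLin.Main
set_option autoImplicit false
namespace Pool.Agent.Results.MP_585e73_co.KSolubleSubgroups

/-- There is an absolute constant `c` such that every finite group `G` generated by `k ≥ 1` soluble
subgroups is the automorphism group of a finite simple graph with at most `c * k * |G|` edges.
For `k = 1` this is: every finite soluble group has `e(G) ≤ c |G|`. -/
theorem result :
    ∃ c : ℕ, ∀ (G : Type) [Group G] [Finite G] (k : ℕ) (L : Fin k → Subgroup G), 0 < k →
      (∀ i, Group.IsSolvable (L i)) → (⨆ i, L i) = ⊤ →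
      ∃ (V : Type) (_ : Finite V) (X : SimpleGraph V),
        Nonempty ((X ≃g X) ≃* G) ∧ Nat.card X.edgeSet ≤ c * k * Nat.card G :=
  ⟨95274, fun G _ _ k L hk hL hG =>
    Pool.Agent.Helper190.EdgeLin.main_generated G k L hk hL hG⟩

end Pool.Agent.Results.MP_585e73_co.KSolubleSubgroups
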